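import Pool.Agent.Run7.h550.RV.Main

/-!
# Rank rigidity for CAT(0) groups acting on trees with a virtually abelian segment stabiliser

Let `G` act geometrically on a geodesically complete proper CAT(0) space `X`, and let `G` act on a
tree `T`.  Let `e` be an edge of `T` such that both half-trees bounded by `e` can be moved off
themselves by elements of `G`.  Theorem: if the pointwise stabiliser of `e` and of some translate of
`e` is (finitely generated and) virtually abelian, then `G` contains a rank one isometry of `X`, or
`X` is a product of two spaces with more than one point; one of the factors is a closed convex subset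
of `X` on which the pointwise stabiliser of `e` and a translate of `e` is virtually abelian and acts
cocompactly.

The condition on the half-trees holds if the stabilisers of both ends of `e` are larger than the
stabiliser of `e`, so the theorem applies to all nontrivial amalgams `A *_K B` (and to all HNN
extensions in which both edge groups are proper subgroups of the vertex group) in which
`K ∩ g K g⁻¹` is finitely generated and virtually abelian for some `g`; for instance `K` may be
virtually abelian.  The edge group need not be convex cocompact.

Idea of the proof.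
(1) In a virtually abelian group a decreasing sequence of subgroups is constant up to finite index
from some place on.  So there is a segment of `T`, between two translates of `e`, whose stabiliser
`M` does not get smaller (up to finite index) when the segment is made longer at one end or at the
other end.
(2) If `M` is finite then some element translates along an axis which contains this segment, and
such an element is a rank one isometry of `X`.
(3) Otherwise `M` is commensurable with all its conjugates: this is clear for the elements which move
the segment along a path which contains it, and these elements generate enough.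
(4) `M` acts cocompactly on a closed convex subset `B` of `X` (`exists_cc_comm`, a form of the flat
torus theorem), which is at finite distance from its translates; a minimal such set is a factor of
`X`.
-/

set_option autoImplicit false

namespace Pool.Agent.Results.MP_ff40e8_al.AbelianSegmentStabilizers

open Set Metric

/-- The inequality of Bruhat and Tits: a complete metric space is CAT(0) if and only if any two
points `p`, `q` have a midpoint `m` such that
`d(x, m)² ≤ (d(x, p)² + d(x, q)²) / 2 - d(p, q)² / 4` for all `x`. -/
def BruhatTits (X : Type) [MetricSpace X] : Prop := ∀ p q : X, ∃ m : X, ∀ x : X,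
  dist x m ^ 2 ≤ (dist x p ^ 2 + dist x q ^ 2) / 2 - dist p q ^ 2 / 4

/-- Every geodesic segment extends to a geodesic line: for `p ≠ q` there is a line through `p` and
`q` (in a CAT(0) space it contains the unique geodesic segment from `p` to `q`). -/
def GeodesicallyComplete (X : Type) [MetricSpace X] : Prop :=
  ∀ p q : X, p ≠ q → ∃ c : ℝ → X, Isometry c ∧ c 0 = p ∧ c (dist p q) = q

/-- The line `c` bounds a flat half-plane: there is an isometric embedding `H` of the Euclidean
half-plane `ℝ × [0, ∞)` which extends `c`. -/
def BoundsHalfPlane {X : Type} [MetricSpace X] (c : ℝ → X) : Prop :=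
  ∃ H : ℝ × NNReal → X,
    (∀ p q : ℝ × NNReal, dist (H p) (H q) ^ 2 = (p.1 - q.1) ^ 2 + ((p.2 : ℝ) - q.2) ^ 2) ∧
    ∀ t : ℝ, H (t, 0) = c t

/-- `g` is a rank one isometry of `X`: it translates a geodesic line `c` by `τ > 0`, and this axis
does not bound a flat half-plane. -/
def IsRankOne (X : Type) [MetricSpace X] {G : Type} [Group G] [MulAction G X] (g : G) : Prop :=
  ∃ (τ : ℝ) (c : ℝ → X), 0 < τ ∧ Isometry c ∧ (∀ t, g • c t = c (t + τ)) ∧ ¬ BoundsHalfPlane c

/-- `B` is a nonempty closed convex subset of `X`, preserved by the subgroup `K`, which acts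
cocompactly on `B`. -/
def ConvexCocompact {X : Type} [MetricSpace X] {G : Type} [Group G] [MulAction G X]
    (K : Subgroup G) (B : Set X) : Prop :=
  B.Nonempty ∧ IsClosed B ∧
    (∀ p ∈ B, ∀ q ∈ B, ∀ m, dist p m + dist m q = dist p q → m ∈ B) ∧
    (∀ g ∈ K, ∀ x ∈ B, g • x ∈ B) ∧
    ∃ C : Set X, IsCompact C ∧ ∀ x ∈ B, ∃ g ∈ K, g • x ∈ C

/-- The pointwise stabiliser of the edge `{a, b}` and its translate `{g a, g b}`, i.e. `K ∩ g K g⁻¹`
for the pointwise stabiliser `K` of `{a, b}`. -/
def SegmentStabilizer {G : Type} [Group G] {V : Type} [MulAction G V] (a b : V) (g : G) :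
    Subgroup G :=
  (MulAction.stabilizer G a ⊓ MulAction.stabilizer G b) ⊓
    (MulAction.stabilizer G (g • a) ⊓ MulAction.stabilizer G (g • b))

/-- `K` has a finitely generated abelian subgroup `A` of finite index. -/
def VirtuallyAbelian {G : Type} [Group G] (K : Subgroup G) : Prop :=
  ∃ A : Subgroup G, A ≤ K ∧ A.FG ∧ (∀ x ∈ A, ∀ y ∈ A, x * y = y * x) ∧ A.relIndex K ≠ 0

open Pool.Agent.T6.H46.RC Pool.Agent.T6.H46.RR Pool.Agent.T6.H67.TA Pool.Agent.Run7.h550.RV

/-- Let `G` act geometrically (by isometries, properly discontinuously, cocompactly) on a nonempty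
proper geodesically complete CAT(0) space `X`, and let `G` act on a tree `T` by graph automorphisms.
Let `{a, b}` be an edge of `T` such that
* there is `p` in `G` such that the segment from `a` to `p a` starts with `a, b` and ends with
  `p b, p a` (for instance any `p` which fixes `b` and not `a`);
* there is `q` in `G` such that the segment from `b` to `q b` starts with `b, a` and ends with
  `q a, q b` (for instance any `q` which fixes `a` and not `b`);
* for some `g` in `G` the pointwise stabiliser of the edges `{a, b}` and `{g a, g b}` is virtually
  abelian.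
Then `G` contains a rank one isometry of `X`, or `X` is isometric to a product `Z × B`, where `Z` and
`B` have more than one point and `B` is a closed convex subset of `X` on which the pointwise
stabiliser of `{a, b}` and some `{h a, h b}` is virtually abelian and acts cocompactly. -/
theorem result {X : Type} [MetricSpace X] [ProperSpace X] [Nonempty X] (hX : BruhatTits X)
    (hc : GeodesicallyComplete X)
    {G : Type} [Group G] [MulAction G X] [IsIsometricSMul G X] [ProperlyDiscontinuousSMul G X]
    (hcc : ∃ C : Set X, IsCompact C ∧ ∀ x : X, ∃ g : G, g • x ∈ C)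
    {V : Type} {T : SimpleGraph V} (hT : T.IsTree) [MulAction G V]
    (hact : ∀ (g : G) (u v : V), T.Adj u v → T.Adj (g • u) (g • v))
    {a b : V} (hab : T.Adj a b)
    (hp : ∃ p : G, T.dist a (p • a) = T.dist b (p • b) + 2)
    (hq : ∃ q : G, T.dist b (q • b) = T.dist a (q • a) + 2)
    (hV : ∃ g : G, VirtuallyAbelian (SegmentStabilizer a b g)) :
    (∃ g : G, IsRankOne X g) ∨
    ∃ (h : G) (B : Set X), VirtuallyAbelian (SegmentStabilizer a b h) ∧
      ConvexCocompact (SegmentStabilizer a b h) B ∧ Nontrivial B ∧
      ∃ (Z : Type) (_ : MetricSpace Z) (_ : Nontrivial Z) (e : X ≃ Z × B), ∀ x x' : X,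
        dist x x' ^ 2 = dist (e x).1 (e x').1 ^ 2 + dist (e x).2 (e x').2 ^ 2 := by
  have hG : Pool.Agent.Y34.HB.Geo X G := ⟨inferInstance, inferInstance, inferInstance, hcc, hX⟩
  obtain ⟨p, hp⟩ := hp
  obtain ⟨q, hq⟩ := hq
  obtain ⟨g₀, hV⟩ := hV
  have hS : ∀ g : G, SegmentStabilizer a b g = SS a b 1 g := by
    intro g
    ext s
    rw [mem_SS, one_smul, one_smul]
    simp only [SegmentStabilizer, Subgroup.mem_inf, MulAction.mem_stabilizer_iff]
  rw [hS] at hV
  rcases main hT hact hG hc (Classical.arbitrary X)
    (K := MulAction.stabilizer G a ⊓ MulAction.stabilizer G b) hab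
    (fun s => by simp [Subgroup.mem_inf, MulAction.mem_stabilizer_iff]) (p := p) (q := q)
    (by unfold Fac D; exact_mod_cast hp) (by unfold Fac D; exact_mod_cast hq) hV with
    ⟨g, τ, c, hτ, ⟨hc1, hc2⟩, he⟩ | ⟨h, B, hVh, h₀, hn, hZ⟩
  · left
    refine ⟨g, τ, c, hτ, hc1, hc2, ?_⟩
    rintro ⟨H, hH1, hH2⟩
    have : H ∈ Pool.Agent.Y34.HB.HP c := ⟨hH1, hH2⟩
    rw [he] at this
    exact this
  · right
    refine ⟨h, B, ?_, ?_, hn, hZ⟩
    · rw [hS]; exact hVh
    · rw [hS]; exact ⟨h₀.ne, h₀.closed, h₀.conv, h₀.inv, h₀.cc⟩

end Pool.Agent.Results.MP_ff40e8_al.AbelianSegmentStabilizers
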