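import Pool.Agent.Run7.h550.RV.VG

/-!
# Rank rigidity for CAT(0) groups acting on trees with a convex cocompact vertex stabiliser which
# contains a rank one element

Let `G` act geometrically on a geodesically complete proper CAT(0) space `X`, and let `G` act on a
tree `T`.  Let `u` be a vertex of `T` which is not fixed by `G`, and whose stabiliser `M` fixes no
neighbour of `u`.  Theorem: if `M` acts cocompactly on a closed convex subset `B` of `X`, and some
element of `M` is a rank one isometry of `B`, then `G` contains a rank one isometry of `X`, or `X` is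
a product of two spaces with more than one point, one of which is a closed convex subset of `B` on
which the stabiliser of `u` and some translate `h u` acts cocompactly.

There is no condition on the edge stabilisers and on the other vertex stabilisers.  The theorem
applies to all nontrivial amalgams `M *_K C`, and to all HNN extensions of `M` in which both edge
groups are proper subgroups of `M`, for instance with an infinite hyperbolic convex cocompact group
`M` and an arbitrary `K`.

Idea of the proof.
(1) If `B` is near all its translates then a minimal closed convex `M`-invariant subset of `B` is a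
factor of `X`.  Otherwise let `B` not be near `h B`, and let `A = M ∩ hMh⁻¹` be the stabiliser of `u`
and `w = h u`.  The segment `[u, w]` can be turned over both of its ends, as `M` fixes no neighbour of
`u` and `hMh⁻¹` fixes no neighbour of `w`.
(2) If `A` contains a power of some conjugate in `M` of the rank one element, then `A` acts
cocompactly on the set of points of `B` at a distance of at most `R` from `hB`, and contains a rank
one isometry of this set.  So the theorem on segment stabilisers can be applied to `u` and `w`.
(3) Otherwise north-south dynamics on `B` gives elements `g` of `M`, products of powers of conjugates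
of the rank one element and perhaps one more element, such that `A ∩ gAg⁻¹` is finite and `g` does
not fix the first edge of `[u, w]`.  If `m` fixes `w` and not the last edge of `[u, w]` then `g m`
translates along an axis in `T` which contains a segment with finite stabiliser.  Such an element is
a rank one isometry of `X`.
-/

set_option autoImplicit false

namespace Pool.Agent.Results.MP_ff40e8_al.ConvexCocompactVertexGroups

open Set Metric

/-- The inequality of Bruhat and Tits: a complete metric space is CAT(0) if and only if any two
points `p`, `q` have a midpoint `m` such that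
`d(x, m)² ≤ (d(x, p)² + d(x, q)²) / 2 - d(p, q)² / 4` for all `x`. -/
def BruhatTits (X : Type) [MetricSpace X] : Prop := ∀ p q : X, ∃ m : X, ∀ x : X,
  dist x m ^ 2 ≤ (dist x p ^ 2 + dist x q ^ 2) / 2 - dist p q ^ 2 / 4

/-- Every geodesic segment extends to a geodesic line: for `p ≠ q` there is a line through `p` and
`q` (in a CAT(0) space it contains the unique geodesic segment from `p` to `q`). -/
def GeodesicallyComplete (X : Type) [MetricSpace X] : Prop :=
  ∀ p q : X, p ≠ q → ∃ c : ℝ → X, Isometry c ∧ c 0 = p ∧ c (dist p q) = q

/-- The line `c` bounds a flat half-plane in the subset `B`: there is an isometric embedding `H`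
of the Euclidean half-plane `ℝ × [0, ∞)` in `X`, with image in `B`, which extends `c`. -/
def BoundsHalfPlaneIn {X : Type} [MetricSpace X] (B : Set X) (c : ℝ → X) : Prop :=
  ∃ H : ℝ × NNReal → X,
    (∀ p q : ℝ × NNReal, dist (H p) (H q) ^ 2 = (p.1 - q.1) ^ 2 + ((p.2 : ℝ) - q.2) ^ 2) ∧
    (∀ p : ℝ × NNReal, H p ∈ B) ∧ ∀ t : ℝ, H (t, 0) = c t

/-- `g` translates a geodesic line `c` in `B` by `τ > 0`, and this axis does not bound a flat
half-plane in `B`.  For `B = univ` this says that `g` is a rank one isometry of `X`, and for an
invariant closed convex set `B` it says that `g` is a rank one isometry of `B`. -/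
def IsRankOneIn {X : Type} [MetricSpace X] {G : Type} [Group G] [MulAction G X] (B : Set X)
    (g : G) : Prop :=
  ∃ (τ : ℝ) (c : ℝ → X), 0 < τ ∧ Isometry c ∧ (∀ t, c t ∈ B) ∧ (∀ t, g • c t = c (t + τ)) ∧
    ¬ BoundsHalfPlaneIn B c

/-- `B` is a nonempty closed convex subset of `X`, preserved by the subgroup `K`, which acts
cocompactly on `B`. -/
def ConvexCocompact {X : Type} [MetricSpace X] {G : Type} [Group G] [MulAction G X]
    (K : Subgroup G) (B : Set X) : Prop :=
  B.Nonempty ∧ IsClosed B ∧
    (∀ p ∈ B, ∀ q ∈ B, ∀ m, dist p m + dist m q = dist p q → m ∈ B) ∧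
    (∀ g ∈ K, ∀ x ∈ B, g • x ∈ B) ∧
    ∃ C : Set X, IsCompact C ∧ ∀ x ∈ B, ∃ g ∈ K, g • x ∈ C

/-- The stabiliser of both `u` and `v` (in a tree it is the pointwise stabiliser of the segment
between them). -/
def SegmentStabilizer (G : Type) [Group G] {V : Type} [MulAction G V] (u v : V) : Subgroup G :=
  MulAction.stabilizer G u ⊓ MulAction.stabilizer G v

open Pool.Agent.T6.H46.RC Pool.Agent.T6.H46.RR Pool.Agent.T6.H67.TA Pool.Agent.Run7.h550.RV

/-- Let `G` act geometrically (by isometries, properly discontinuously, cocompactly) on a proper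
geodesically complete CAT(0) space `X`, and let `G` act on a tree `T` by graph automorphisms.  Let
`u` be a vertex of `T` such that
* `u` is not fixed by `G`;
* no neighbour of `u` is fixed by the stabiliser of `u`;
* the stabiliser of `u` acts cocompactly on a closed convex subset `B` of `X`, and contains an
  element which is rank one in `B`.
Then `G` contains a rank one isometry of `X`, or `X` is isometric to a product `Z × B₀`, where `Z`
and `B₀` have more than one point and `B₀` is a closed convex subset of `B`, on which the
stabiliser of `u` and some translate `h u` acts cocompactly. -/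
theorem result {X : Type} [MetricSpace X] [ProperSpace X] (hX : BruhatTits X)
    (hc : GeodesicallyComplete X)
    {G : Type} [Group G] [MulAction G X] [IsIsometricSMul G X] [ProperlyDiscontinuousSMul G X]
    (hcc : ∃ C : Set X, IsCompact C ∧ ∀ x : X, ∃ g : G, g • x ∈ C)
    {V : Type} {T : SimpleGraph V} (hT : T.IsTree) [MulAction G V]
    (hact : ∀ (g : G) (u v : V), T.Adj u v → T.Adj (g • u) (g • v))
    {u : V} (hu : ∃ g : G, g • u ≠ u)
    (hmove : ∀ w : V, T.Adj u w → ∃ m ∈ MulAction.stabilizer G u, m • w ≠ w)
    {B : Set X} (hB : ConvexCocompact (MulAction.stabilizer G u) B)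
    (hk : ∃ k ∈ MulAction.stabilizer G u, IsRankOneIn B k) :
    (∃ g : G, IsRankOneIn (univ : Set X) g) ∨
    ∃ (h : G) (B₀ : Set X), B₀ ⊆ B ∧ ConvexCocompact (SegmentStabilizer G u (h • u)) B₀ ∧
      Nontrivial B₀ ∧
      ∃ (Z : Type) (_ : MetricSpace Z) (_ : Nontrivial Z) (e : X ≃ Z × B₀), ∀ x x' : X,
        dist x x' ^ 2 = dist (e x).1 (e x').1 ^ 2 + dist (e x).2 (e x').2 ^ 2 := by
  have hG : Pool.Agent.Y34.HB.Geo X G := ⟨inferInstance, inferInstance, inferInstance, hcc, hX⟩
  obtain ⟨k, hkK, τ, c, hτ, hci, hcB, hkc, hno⟩ := hk
  obtain ⟨b1, b2, b3, b4, b5⟩ := hB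
  have hB' : CC (MulAction.stabilizer G u) B := ⟨b1, b2, b3, b4, b5⟩
  rcases vg_main hT hact hG hc (fun s => MulAction.mem_stabilizer_iff)
    (fun w hw => by
      obtain ⟨m, hm1, hm2⟩ := hmove w hw
      exact ⟨m, hm1, hm2⟩) hu hB' hkK hτ hci hcB hkc hno with
    ⟨g, τ', c', hτ', ⟨hc1, hc2⟩, he⟩ | ⟨h, B₀, hsub, h₀, hn, hZ⟩
  · left
    refine ⟨g, τ', c', hτ', hc1, fun _ => mem_univ _, hc2, ?_⟩
    rintro ⟨H, hH1, -, hH2⟩
    have : H ∈ Pool.Agent.Y34.HB.HP c' := ⟨hH1, hH2⟩
    rw [he] at this
    exact this
  · right
    exact ⟨h, B₀, hsub, ⟨h₀.ne, h₀.closed, h₀.conv, h₀.inv, h₀.cc⟩, hn, hZ⟩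

end Pool.Agent.Results.MP_ff40e8_al.ConvexCocompactVertexGroups
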