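import Pool.Agent.Run7.h550.RV.Seg

/-!
# Rank rigidity for CAT(0) groups acting on trees, with a convex cocompact segment stabiliser which
# contains a rank one element

Let `G` act geometrically on a geodesically complete proper CAT(0) space `X`, and let `G` act on a
tree `T`.  Let `u ≠ v` be vertices of `T` such that the segment `[u, v]` can be turned over its end
`v` and over its end `u` (the path from `u` to `p u` passes through `v` and then through `p v` for
some `p` in `G`, and in the same way for `v`, `u` and some `q`).  Let `M` be the stabiliser of both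
`u` and `v`.  Theorem: if `M` acts cocompactly on a closed convex subset `B` of `X`, and some element
of `M` is a rank one isometry of `B`, then `G` contains a rank one isometry of `X`, or `X` is a
product of two spaces with more than one point, one of which is a closed convex subset of `B` on
which `M` acts cocompactly.

For adjacent `u`, `v` this is the theorem on convex cocompact edge stabilisers of the starting
library.  Here no edge stabiliser has to be convex cocompact, only the stabiliser of some segment of
the tree: for an amalgam `A *_K C` the group `M` may be any `K ∩ g K g⁻¹`, or any intersection of two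
conjugates of `A` or `C`, for which `u` and `v` satisfy the condition above.

Idea of the proof.
(1) For `h` in `G` the group `M ∩ hMh⁻¹` acts cocompactly on the set of points of `B` near `hB`, so
it is quasi-convex in `M`.  If it contains powers of all conjugates in `M` of the rank one element
then `d(x, hB)` is bounded on `B`.
(2) Let `h₂` and `h₁⁻¹` move the segment beyond itself, to the right and to the left, without
turning it.  If neither `M ∩ h₁⁻¹Mh₁` nor `M ∩ h₂Mh₂⁻¹` contains powers of all conjugates, then
north-south dynamics on `B` gives `g` in `M` such that `M ∩ h₁⁻¹Mh₁ ∩ g(h₂Mh₂⁻¹)g⁻¹` is finite, and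
`g h₂ h₁` translates along an axis in `T` which contains a segment with finite stabiliser.  Such an
element is a rank one isometry of `X`.
(3) So if `G` contains no rank one isometry then, after exchanging `u` and `v`, `B` is near `hB` for
all `h` of this kind on the right hand side.  If `u'` turns the segment over to the right hand side
then `u' q` is of this kind, and what fixes `[u, v]` and `u' q [u, v]` fixes `u' [u, v]`.  So `B` is
near `u' B` for all `u'` which turn the segment over to the right hand side, and these elements
generate `G`.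
(4) A minimal closed convex `M`-invariant subset of `B` is then a factor of `X`.
-/

set_option autoImplicit false

namespace Pool.Agent.Results.MP_ff40e8_al.RankOneSegmentStabilizers

open Set Metric

/-- The inequality of Bruhat and Tits: a complete metric space is CAT(0) if and only if any two
points `p`, `q` have a midpoint `m` such that
`d(x, m)² ≤ (d(x, p)² + d(x, q)²) / 2 - d(p, q)² / 4` for all `x`. -/
def BruhatTits (X : Type) [MetricSpace X] : Prop := ∀ p q : X, ∃ m : X, ∀ x : X,
  dist x m ^ 2 ≤ (dist x p ^ 2 + dist x q ^ 2) / 2 - dist p q ^ 2 / 4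

/-- Every geodesic segment extends to a geodesic line: for `p ≠ q` there is a line through `p` and
`q` (in a CAT(0) space it contains the unique geodesic segment from `p` to `q`). -/
def GeodesicallyComplete (X : Type) [MetricSpace X] : Prop :=
  ∀ p q : X, p ≠ q → ∃ c : ℝ → X, Isometry c ∧ c 0 = p ∧ c (dist p q) = q

/-- The line `c` bounds a flat half-plane in the subset `B`: there is an isometric embedding `H`
of the Euclidean half-plane `ℝ × [0, ∞)` in `X`, with image in `B`, which extends `c`. -/
def BoundsHalfPlaneIn {X : Type} [MetricSpace X] (B : Set X) (c : ℝ → X) : Prop :=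
  ∃ H : ℝ × NNReal → X,
    (∀ p q : ℝ × NNReal, dist (H p) (H q) ^ 2 = (p.1 - q.1) ^ 2 + ((p.2 : ℝ) - q.2) ^ 2) ∧
    (∀ p : ℝ × NNReal, H p ∈ B) ∧ ∀ t : ℝ, H (t, 0) = c t

/-- `g` translates a geodesic line `c` in `B` by `τ > 0`, and this axis does not bound a flat
half-plane in `B`.  For `B = univ` this says that `g` is a rank one isometry of `X`, and for an
invariant closed convex set `B` it says that `g` is a rank one isometry of `B`. -/
def IsRankOneIn {X : Type} [MetricSpace X] {G : Type} [Group G] [MulAction G X] (B : Set X)
    (g : G) : Prop :=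
  ∃ (τ : ℝ) (c : ℝ → X), 0 < τ ∧ Isometry c ∧ (∀ t, c t ∈ B) ∧ (∀ t, g • c t = c (t + τ)) ∧
    ¬ BoundsHalfPlaneIn B c

/-- `B` is a nonempty closed convex subset of `X`, preserved by the subgroup `K`, which acts
cocompactly on `B`. -/
def ConvexCocompact {X : Type} [MetricSpace X] {G : Type} [Group G] [MulAction G X]
    (K : Subgroup G) (B : Set X) : Prop :=
  B.Nonempty ∧ IsClosed B ∧
    (∀ p ∈ B, ∀ q ∈ B, ∀ m, dist p m + dist m q = dist p q → m ∈ B) ∧
    (∀ g ∈ K, ∀ x ∈ B, g • x ∈ B) ∧
    ∃ C : Set X, IsCompact C ∧ ∀ x ∈ B, ∃ g ∈ K, g • x ∈ C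

/-- The stabiliser of both `u` and `v` (in a tree it is the pointwise stabiliser of the segment
between them). -/
def SegmentStabilizer (G : Type) [Group G] {V : Type} [MulAction G V] (u v : V) : Subgroup G :=
  MulAction.stabilizer G u ⊓ MulAction.stabilizer G v

open Pool.Agent.T6.H46.RC Pool.Agent.T6.H46.RR Pool.Agent.T6.H67.TA Pool.Agent.Run7.h550.RV

/-- Let `G` act geometrically (by isometries, properly discontinuously, cocompactly) on a proper
geodesically complete CAT(0) space `X`, and let `G` act on a tree `T` by graph automorphisms.  Let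
`u ≠ v` be vertices of `T` such that
* there is `p` in `G` such that the segment from `u` to `p u` passes through `v` and then through
  `p v` (for instance any `p` which fixes `v` and moves its neighbour on the segment `[u, v]`);
* there is `q` in `G` such that the segment from `v` to `q v` passes through `u` and then through
  `q u` (for instance any `q` which fixes `u` and moves its neighbour on the segment `[u, v]`);
* the stabiliser of both `u` and `v` acts cocompactly on a closed convex subset `B` of `X`, and
  contains an element which is rank one in `B`.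
Then `G` contains a rank one isometry of `X`, or `X` is isometric to a product `Z × B₀`, where `Z`
and `B₀` have more than one point and `B₀` is a closed convex subset of `B`, on which the
stabiliser of both `u` and `v` acts cocompactly. -/
theorem result {X : Type} [MetricSpace X] [ProperSpace X] (hX : BruhatTits X)
    (hc : GeodesicallyComplete X)
    {G : Type} [Group G] [MulAction G X] [IsIsometricSMul G X] [ProperlyDiscontinuousSMul G X]
    (hcc : ∃ C : Set X, IsCompact C ∧ ∀ x : X, ∃ g : G, g • x ∈ C)
    {V : Type} {T : SimpleGraph V} (hT : T.IsTree) [MulAction G V]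
    (hact : ∀ (g : G) (u v : V), T.Adj u v → T.Adj (g • u) (g • v))
    {u v : V} (huv : u ≠ v)
    (hp : ∃ p : G, T.dist u (p • u) = T.dist v (p • v) + 2 * T.dist u v)
    (hq : ∃ q : G, T.dist v (q • v) = T.dist u (q • u) + 2 * T.dist u v)
    {B : Set X} (hB : ConvexCocompact (SegmentStabilizer G u v) B)
    (hk : ∃ k ∈ SegmentStabilizer G u v, IsRankOneIn B k) :
    (∃ g : G, IsRankOneIn (univ : Set X) g) ∨
    ∃ B₀ : Set X, B₀ ⊆ B ∧ ConvexCocompact (SegmentStabilizer G u v) B₀ ∧ Nontrivial B₀ ∧
      ∃ (Z : Type) (_ : MetricSpace Z) (_ : Nontrivial Z) (e : X ≃ Z × B₀), ∀ x x' : X,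
        dist x x' ^ 2 = dist (e x).1 (e x').1 ^ 2 + dist (e x).2 (e x').2 ^ 2 := by
  have hG : Pool.Agent.Y34.HB.Geo X G := ⟨inferInstance, inferInstance, inferInstance, hcc, hX⟩
  obtain ⟨p, hp⟩ := hp
  obtain ⟨q, hq⟩ := hq
  obtain ⟨k, hkK, τ, c, hτ, hci, hcB, hkc, hno⟩ := hk
  obtain ⟨b1, b2, b3, b4, b5⟩ := hB
  have hB' : CC (SegmentStabilizer G u v) B := ⟨b1, b2, b3, b4, b5⟩
  have hax : @Pool.Agent.Y34.HB.Axis B _ (SegmentStabilizer G u v) _ (bact hB') ⟨k, hkK⟩ τ
      (fun t => ⟨c t, hcB t⟩) :=
    ⟨Isometry.of_dist_eq fun s t => hci.dist_eq s t, fun t => Subtype.ext (hkc t)⟩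
  have hHP : Pool.Agent.Y34.HB.HP (fun t => (⟨c t, hcB t⟩ : B)) = ∅ := by
    rw [eq_empty_iff_forall_notMem]
    rintro H ⟨h1, h2⟩
    exact hno ⟨fun z => H z, h1, fun z => (H z).2, fun t => congrArg Subtype.val (h2 t)⟩
  have hM : ∀ s : G, s ∈ SegmentStabilizer G u v ↔ s • u = u ∧ s • v = v := by
    intro s
    simp [SegmentStabilizer, MulAction.mem_stabilizer_iff]
  rcases seg_main' hT hact hG hc huv hM hB' ⟨k, hkK⟩ hτ hax hHP (q := q) (r := p)
    (by unfold D; exact_mod_cast hq) (by unfold D; exact_mod_cast hp) with
    ⟨g, τ', c', hτ', ⟨hc1, hc2⟩, he⟩ | ⟨B₀, hsub, h₀, hn, h⟩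
  · left
    refine ⟨g, τ', c', hτ', hc1, fun _ => mem_univ _, hc2, ?_⟩
    rintro ⟨H, hH1, -, hH2⟩
    have : H ∈ Pool.Agent.Y34.HB.HP c' := ⟨hH1, hH2⟩
    rw [he] at this
    exact this
  · right
    exact ⟨B₀, hsub, ⟨h₀.ne, h₀.closed, h₀.conv, h₀.inv, h₀.cc⟩, hn, h⟩

end Pool.Agent.Results.MP_ff40e8_al.RankOneSegmentStabilizers
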